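import Mathlib

open Topology Filter Set TopologicalSpace

namespace Pool.Agent.Results.MP_21d915_nt.NoBound

/-- The tower `EL^{(b)}`: the smallest algebraically closed subfield `F` of `ℂ` with
`x ∈ F ↔ b^x ∈ F` for all `x`, where `b^x = exp (x * log b)` with the principal logarithm. -/
noncomputable def EL (b : ℂ) : Subfield ℂ :=
  sInf {F : Subfield ℂ | IsAlgClosed F ∧ ∀ x : ℂ, x ∈ F ↔ Complex.exp (x * Complex.log b) ∈ F}

def LipG {α : Type} [PseudoMetricSpace α] (Γ : Set (α × ℂ)) : Prop :=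
  ∃ C : ℝ, 0 ≤ C ∧ ∀ p ∈ Γ, ∀ q ∈ Γ, dist p.2 q.2 ≤ C * dist p.1 q.1

noncomputable def Fam (k c : ℕ) (i j : Fin k) (p : (Fin k → ℂ) × ℂ) : ℂ :=
  match c with
  | 0 => ∑ a : Fin k, p.1 a * p.2 ^ (a : ℕ)
  | 1 => p.1 i + p.1 j - p.2
  | 2 => p.1 i * p.1 j - p.2
  | 3 => Complex.exp (p.1 i * p.1 j) - p.2
  | 4 => Complex.exp (p.2 * p.1 j) - p.1 i
  | _ => 1 - p.2

theorem fam_smooth (k c : ℕ) (i j : Fin k) : ContDiff ℂ 1 (Fam k c i j) := by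
  unfold Fam
  rcases c with _ | _ | _ | _ | _ | c <;> simp only <;> fun_prop

theorem local_lip {k : ℕ} {Φ : (Fin k → ℂ) × ℂ → ℂ} (hΦ : ContDiff ℂ 1 Φ) (z : Fin k → ℂ)
    (y d : ℂ) (hd : d ≠ 0) (hder : HasDerivAt (fun w => Φ (z, w)) d y) :
    ∃ N ∈ countableBasis ((Fin k → ℂ) × ℂ), (z, y) ∈ N ∧ LipG (N ∩ {p | Φ p = 0}) := by
  have hs := (hΦ.contDiffAt (x := (z, y))).hasStrictFDerivAt one_ne_zero
  set L := fderiv ℂ Φ (z, y)
  have hL : L (0, 1) = d := by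
    have h2 : HasDerivAt (fun w : ℂ => ((z, w) : (Fin k → ℂ) × ℂ)) (0, 1) y :=
      (hasDerivAt_const y z).prodMk (hasDerivAt_id y)
    exact (hs.hasFDerivAt.comp_hasDerivAt y h2).unique hder
  have hdpos : 0 < ‖d‖ := norm_pos_iff.2 hd
  obtain ⟨s, hs1, hs2⟩ := hs.approximates_deriv_on_nhds (c := ⟨‖d‖ / 2, by positivity⟩)
    (Or.inr (half_pos hdpos))
  obtain ⟨N, hN, hzN, hNs⟩ := (isBasis_countableBasis _).mem_nhds_iff.1 hs1
  refine ⟨N, hN, hzN, (2 * ‖L‖ + ‖d‖) / ‖d‖, by positivity, ?_⟩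
  rintro p ⟨hp, hp0⟩ q ⟨hq, hq0⟩
  have h1 := hs2 p (hNs hp) q (hNs hq)
  simp only [mem_ofPred_eq] at hp0 hq0
  rw [hp0, hq0] at h1
  have h2 : p - q = (p.1 - q.1, 0) + (p.2 - q.2) • ((0, 1) : (Fin k → ℂ) × ℂ) := by
    ext <;> simp
  have h3 : L (p - q) = L (p.1 - q.1, 0) + (p.2 - q.2) * d := by
    rw [h2, map_add, map_smul, hL, smul_eq_mul]
  have h4 : ‖p - q‖ ≤ ‖p.1 - q.1‖ + ‖p.2 - q.2‖ := by
    rw [Prod.norm_def]
    exact max_le (le_add_of_nonneg_right (norm_nonneg _)) (le_add_of_nonneg_left (norm_nonneg _))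
  have h5 : ‖L (p.1 - q.1, 0)‖ ≤ ‖L‖ * ‖p.1 - q.1‖ := by
    simpa using L.le_opNorm (p.1 - q.1, 0)
  have h6 : ‖p.2 - q.2‖ * ‖d‖ ≤ ‖L (p - q)‖ + ‖L (p.1 - q.1, 0)‖ := by
    rw [← norm_mul]
    have : (p.2 - q.2) * d = L (p - q) - L (p.1 - q.1, 0) := by rw [h3]; ring
    rw [this]
    exact norm_sub_le _ _
  simp only [sub_self, zero_sub, norm_neg] at h1
  change _ ≤ ‖d‖ / 2 * ‖p - q‖ at h1
  rw [dist_eq_norm, dist_eq_norm, div_mul_eq_mul_div, le_div_iff₀ hdpos]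
  have h7 := mul_le_mul_of_nonneg_left h4 (show 0 ≤ ‖d‖ / 2 by positivity)
  linarith

def step {k : ℕ} (Z : Set ((Fin k → ℂ) × ℂ)) (Γ : Fin k → Set (ℂ × ℂ)) : Set (ℂ × ℂ) :=
  {p | ∃ z : Fin k → ℂ, (∀ i, (p.1, z i) ∈ Γ i) ∧ (z, p.2) ∈ Z}

def G : ℕ → Set (Set (ℂ × ℂ))
  | 0 => {{p | p.2 = p.1}}
  | n + 1 => G n ∪ ⋃ k : ℕ, ⋃ c : ℕ, ⋃ i : Fin k, ⋃ j : Fin k,
      ⋃ N ∈ {N ∈ countableBasis ((Fin k → ℂ) × ℂ) | LipG (N ∩ {p | Fam k c i j p = 0})},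
        step (N ∩ {p | Fam k c i j p = 0}) '' {Γ | ∀ a, Γ a ∈ G n}

theorem G_countable (n : ℕ) : (G n).Countable := by
  induction n with
  | zero => exact countable_singleton _
  | succ n ih =>
    refine ih.union (countable_iUnion fun k => countable_iUnion fun c => countable_iUnion fun i =>
      countable_iUnion fun j => Countable.biUnion
        ((countable_countableBasis _).mono fun _ h => h.1) fun N _ => Countable.image ?_ _)
    exact countable_pi fun _ => ih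

theorem G_lip (n : ℕ) : ∀ Γ ∈ G n, LipG Γ := by
  induction n with
  | zero =>
    rintro _ rfl
    refine ⟨1, zero_le_one, fun p hp q hq => ?_⟩
    simp only [mem_ofPred_eq] at hp hq
    rw [hp, hq, one_mul]
  | succ n ih =>
    rintro Γ (h | h)
    · exact ih Γ h
    · simp only [mem_iUnion] at h
      obtain ⟨k, c, i, j, N, ⟨-, C, hC, hN⟩, Δ, hΔ, rfl⟩ := h
      choose D hD0 hD using fun a => ih _ (hΔ a)
      have hS : 0 ≤ ∑ a, D a := Finset.sum_nonneg fun a _ => hD0 a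
      refine ⟨C * ∑ a, D a, by positivity, ?_⟩
      rintro p ⟨z, hz, hzp⟩ q ⟨w, hw, hwq⟩
      refine (hN _ hzp _ hwq).trans ?_
      rw [mul_assoc]
      refine mul_le_mul_of_nonneg_left ?_ hC
      rw [dist_pi_le_iff (by positivity)]
      intro a
      exact (hD a _ (hz a) _ (hw a)).trans (mul_le_mul_of_nonneg_right
        (Finset.single_le_sum (fun b _ => hD0 b) (Finset.mem_univ a)) dist_nonneg)

theorem G_mono : Monotone G := monotone_nat_of_le_succ fun _ => subset_union_left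

def H (t : ℂ) : Set ℂ := {x | ∃ n, ∃ Γ ∈ G n, (t, x) ∈ Γ}

theorem self_mem (t : ℂ) : t ∈ H t := ⟨0, _, rfl, rfl⟩

theorem closed {t : ℂ} {k : ℕ} (c : ℕ) (i j : Fin k) (z : Fin k → ℂ) (hz : ∀ a, z a ∈ H t)
    (y d : ℂ) (hd : d ≠ 0) (h0 : Fam k c i j (z, y) = 0)
    (hder : HasDerivAt (fun w => Fam k c i j (z, w)) d y) : y ∈ H t := by
  obtain ⟨N, hN, hzN, hlip⟩ := local_lip (fam_smooth k c i j) z y d hd hder
  choose n Γ hΓ hmem using hz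
  refine ⟨Finset.univ.sup n + 1, step (N ∩ {p | Fam k c i j p = 0}) Γ, Or.inr ?_,
    z, hmem, hzN, h0⟩
  simp only [mem_iUnion]
  exact ⟨k, c, i, j, N, ⟨hN, hlip⟩, Γ,
    fun a => G_mono (Finset.le_sup (Finset.mem_univ a)) (hΓ a), rfl⟩

theorem two {t x y : ℂ} (hx : x ∈ H t) (hy : y ∈ H t) : ∀ a : Fin 2, ![x, y] a ∈ H t := by
  intro a
  fin_cases a
  · exact hx
  · exact hy

theorem one_mem (t : ℂ) : (1 : ℂ) ∈ H t :=
  closed 5 0 1 _ (two (self_mem t) (self_mem t)) 1 (-1) (by simp) (by simp [Fam])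
    (by simpa [Fam] using (hasDerivAt_id (1 : ℂ)).const_sub 1)

theorem add_mem' {t x y : ℂ} (hx : x ∈ H t) (hy : y ∈ H t) : x + y ∈ H t :=
  closed 1 0 1 _ (two hx hy) _ (-1) (by simp) (by simp [Fam])
    (by simpa [Fam] using (hasDerivAt_id (x + y)).const_sub (x + y))

theorem mul_mem' {t x y : ℂ} (hx : x ∈ H t) (hy : y ∈ H t) : x * y ∈ H t :=
  closed 2 0 1 _ (two hx hy) _ (-1) (by simp) (by simp [Fam])
    (by simpa [Fam] using (hasDerivAt_id (x * y)).const_sub (x * y))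

theorem exp_mem {t x : ℂ} (hx : x ∈ H t) : Complex.exp (x * t) ∈ H t :=
  closed 3 0 1 _ (two hx (self_mem t)) _ (-1) (by simp) (by simp [Fam])
    (by simpa [Fam] using
      (hasDerivAt_id (Complex.exp (x * t))).const_sub (Complex.exp (x * t)))

theorem log_mem {t x : ℂ} (ht : t ≠ 0) (hx : Complex.exp (x * t) ∈ H t) : x ∈ H t :=
  closed 4 0 1 _ (two hx (self_mem t)) _ (Complex.exp (x * t) * t)
    (mul_ne_zero (Complex.exp_ne_zero _) ht) (by simp [Fam])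
    (by simpa [Fam] using
      (((hasDerivAt_id x).mul_const t).cexp).sub_const (Complex.exp (x * t)))

theorem lin_mem {t a b y : ℂ} (ha : a ∈ H t) (hb : b ∈ H t) (hb0 : b ≠ 0) (h : a + b * y = 0) :
    y ∈ H t :=
  closed 0 0 1 _ (two ha hb) y b hb0 (by simpa [Fam] using h)
    (by simpa [Fam] using ((hasDerivAt_id y).const_mul b).const_add a)

theorem neg_mem' {t x : ℂ} (hx : x ∈ H t) : -x ∈ H t :=
  lin_mem hx (one_mem t) one_ne_zero (by ring)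

theorem zero_mem (t : ℂ) : (0 : ℂ) ∈ H t := by
  simpa using add_mem' (one_mem t) (neg_mem' (one_mem t))

def HF (t : ℂ) : Subfield ℂ where
  carrier := H t
  mul_mem' := mul_mem'
  one_mem' := one_mem t
  add_mem' := add_mem'
  zero_mem' := zero_mem t
  neg_mem' := neg_mem'
  inv_mem' x hx := by
    by_cases h : x = 0
    · simpa [h] using zero_mem t
    · exact lin_mem (neg_mem' (one_mem t)) hx h (by field_simp; ring)

theorem algClosed (t : ℂ) : IsAlgClosed (HF t) := by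
  refine IsAlgClosed.of_exists_root _ fun p _ hirr => ?_
  obtain ⟨y, hy⟩ := IsAlgClosed.exists_aeval_eq_zero ℂ p hirr.degree_pos.ne'
  have hd := hirr.separable.aeval_derivative_ne_zero hy
  have e : ∀ w : ℂ, Fam (p.natDegree + 1) 0 0 0 (fun a => ((p.coeff a : HF t) : ℂ), w) =
      Polynomial.aeval w p := by
    intro w
    rw [Polynomial.aeval_eq_sum_range, Finset.sum_range]
    rfl
  have hmem : y ∈ H t := closed 0 0 0 (fun a : Fin (p.natDegree + 1) => ((p.coeff a : HF t) : ℂ))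
    (fun a => (p.coeff a).2) y _ hd (by rw [e, hy])
    (by simp only [e]; exact p.hasDerivAt_aeval y)
  refine ⟨⟨y, hmem⟩, ?_⟩
  have h2 := Polynomial.aeval_algebraMap_apply ℂ (⟨y, hmem⟩ : HF t) p
  rw [Polynomial.coe_aeval_eq_eval] at h2
  exact (map_eq_zero (algebraMap (HF t) ℂ)).1 (h2.symm.trans hy)

theorem pair_dim {Γ Δ : Set (ℂ × ℂ)} (h1 : LipG Γ) (h2 : LipG Δ) :
    dimH {p : ℂ × ℂ | ∃ t, (t, p.1) ∈ Γ ∧ (t, p.2) ∈ Δ} ≤ 2 := by
  obtain ⟨C, hC, h1⟩ := h1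
  obtain ⟨D, hD, h2⟩ := h2
  have hex : ∀ t ∈ {t : ℂ | ∃ p : ℂ × ℂ, (t, p.1) ∈ Γ ∧ (t, p.2) ∈ Δ},
      ∃ p : ℂ × ℂ, (t, p.1) ∈ Γ ∧ (t, p.2) ∈ Δ := fun t ht => ht
  choose! f hf using hex
  have hl : LipschitzOnWith ⟨C + D, by positivity⟩ f
      {t : ℂ | ∃ p : ℂ × ℂ, (t, p.1) ∈ Γ ∧ (t, p.2) ∈ Δ} := by
    refine LipschitzOnWith.of_dist_le_mul fun s hs t ht => ?_
    have a1 := h1 _ (hf s hs).1 _ (hf t ht).1
    have a2 := h2 _ (hf s hs).2 _ (hf t ht).2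
    have a3 : 0 ≤ dist s t := dist_nonneg
    simp only at a1 a2
    change _ ≤ (C + D) * dist s t
    rw [Prod.dist_eq]
    exact max_le (by nlinarith) (by nlinarith)
  refine le_trans (dimH_mono ?_) (hl.dimH_image_le.trans ((dimH_mono (subset_univ _)).trans ?_))
  · rintro p ⟨t, ht1, ht2⟩
    have ht : t ∈ {t : ℂ | ∃ p : ℂ × ℂ, (t, p.1) ∈ Γ ∧ (t, p.2) ∈ Δ} := ⟨p, ht1, ht2⟩
    refine ⟨t, ht, Prod.ext ?_ ?_⟩
    · simpa using h1 _ (hf t ht).1 _ ht1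
    · simpa using h2 _ (hf t ht).2 _ ht2
  · rw [Real.dimH_univ_eq_finrank]
    simp

theorem result : ¬ ∀ a b : ℂ, a ≠ 0 → a ≠ 1 → b ≠ 0 → b ≠ 1 →
    ∃ c : ℂ, c ≠ 0 ∧ c ≠ 1 ∧ EL a ≤ EL c ∧ EL b ≤ EL c := by
  intro h
  have hself : ∀ a : ℂ, a ≠ 0 → a ∈ EL a := by
    intro a ha
    refine Subfield.mem_sInf.2 fun F hF => ?_
    have := (hF.2 1).1 F.one_mem
    rwa [one_mul, Complex.exp_log ha] at this
  have hle : ∀ c : ℂ, c ≠ 0 → c ≠ 1 → EL c ≤ HF (Complex.log c) := by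
    intro c hc0 hc1
    have ht : Complex.log c ≠ 0 := fun h0 => hc1 (by rw [← Complex.exp_log hc0, h0, Complex.exp_zero])
    exact sInf_le ⟨algClosed _, fun x => ⟨exp_mem, log_mem ht⟩⟩
  have hcov : ∀ a b : ℂ, ∃ t, a ∈ H t ∧ b ∈ H t := by
    intro a b
    by_cases ha0 : a = 0
    · exact ⟨b, ha0 ▸ zero_mem b, self_mem b⟩
    by_cases ha1 : a = 1
    · exact ⟨b, ha1 ▸ one_mem b, self_mem b⟩
    by_cases hb0 : b = 0
    · exact ⟨a, self_mem a, hb0 ▸ zero_mem a⟩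
    by_cases hb1 : b = 1
    · exact ⟨a, self_mem a, hb1 ▸ one_mem a⟩
    obtain ⟨c, hc0, hc1, h1, h2⟩ := h a b ha0 ha1 hb0 hb1
    exact ⟨_, hle c hc0 hc1 (h1 (hself a ha0)), hle c hc0 hc1 (h2 (hself b hb0))⟩
  have hsub : (univ : Set (ℂ × ℂ)) ⊆ ⋃ n, ⋃ m, ⋃ Γ ∈ G n, ⋃ Δ ∈ G m,
      {p : ℂ × ℂ | ∃ t, (t, p.1) ∈ Γ ∧ (t, p.2) ∈ Δ} := by
    intro p _
    obtain ⟨t, ⟨n, Γ, hΓ, h1⟩, ⟨m, Δ, hΔ, h2⟩⟩ := hcov p.1 p.2
    simp only [mem_iUnion]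
    exact ⟨n, m, Γ, hΓ, Δ, hΔ, t, h1, h2⟩
  have h1 := dimH_mono hsub
  have h2 : dimH (⋃ n, ⋃ m, ⋃ Γ ∈ G n, ⋃ Δ ∈ G m,
      {p : ℂ × ℂ | ∃ t, (t, p.1) ∈ Γ ∧ (t, p.2) ∈ Δ}) ≤ 2 := by
    rw [dimH_iUnion]
    refine iSup_le fun n => ?_
    rw [dimH_iUnion]
    refine iSup_le fun m => ?_
    rw [dimH_bUnion (G_countable n)]
    refine iSup₂_le fun Γ hΓ => ?_
    rw [dimH_bUnion (G_countable m)]
    exact iSup₂_le fun Δ hΔ => pair_dim (G_lip n Γ hΓ) (G_lip m Δ hΔ)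
  have h3 := h1.trans h2
  rw [Real.dimH_univ_eq_finrank, Module.finrank_prod, Complex.finrank_real_complex] at h3
  norm_num at h3

end Pool.Agent.Results.MP_21d915_nt.NoBound
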